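import Pool.Agent.Lib.MP_49fa77_co.H30.Iface

/-!
# FB: at a closed vertex all Delaunay edges belong to the family
-/

set_option autoImplicit false

namespace FT58.AS.H31

open Real MeasureTheory Set Metric Filter Relation FT58 FT58.AS

/-- order by slopes in an open half plane -/
lemma slope_lt' {u v e : ℂ} (hu : dt u e < 0) (hv : dt v e < 0) (h : 0 < cr u v) :
    cr v e / dt v e < cr u e / dt u e := by
  have hid : cr u v * dt e e = cr u e * dt v e - cr v e * dt u e := by unfold cr dt; ring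
  have he : 0 < dt e e := by
    by_contra hcon
    push Not at hcon
    unfold dt at hcon hu
    have h1 : e.re = 0 := by nlinarith [sq_nonneg e.re, sq_nonneg e.im]
    have h2 : e.im = 0 := by nlinarith [sq_nonneg e.re, sq_nonneg e.im]
    rw [h1, h2] at hu
    simp at hu
  have hpos : 0 < cr u v * dt e e := mul_pos h he
  rw [hid] at hpos
  have hm : 0 < dt u e * dt v e := mul_pos_of_neg_of_neg hu hv
  have hd : cr u e / dt u e - cr v e / dt v e
      = (cr u e * dt v e - cr v e * dt u e) / (dt u e * dt v e) := by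
    field_simp [hu.ne, hv.ne]
  have : 0 < cr u e / dt u e - cr v e / dt v e := by
    rw [hd]; exact div_pos hpos hm
  linarith

/-- the crossing lemma -/
lemma crossing {S : Finset ℂ} {y q r z : ℂ} (hT : Tr S y q r) (hz : z ∈ S) (hzy : z ≠ y)
    (h1 : 0 < XX y q z) (h2 : 0 < XX y z r) : ¬ Ed S y z := by
  intro hE
  have hzq : z ≠ q := by rintro rfl; rw [XX_right] at h1; exact lt_irrefl _ h1
  have hzr : z ≠ r := by rintro rfl; rw [XX_right] at h2; exact lt_irrefl _ h2
  have h3 : 0 < IC y q r z := hT.2.2.2.2 z hz hzy hzq hzr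
  have h4 : XX y z q < 0 := by
    have : XX y z q = -XX y q z := by
      simp only [XX, cr, Complex.sub_re, Complex.sub_im]; ring
    linarith
  have h5 := IC_of_Ed (u := y) (v := z) (w := r) (s := q) hT.2.2.1 hT.2.1 hE h2 h4
  have h6 := IC_rev y q r z
  linarith

/-- FB -/
theorem fb_st : FaS → FbS := by
  classical
  intro hFA S F hG hF y hC q₀ h0 z hz hE
  by_contra hL
  obtain ⟨hyz, hEd⟩ := hE
  have hmem : ∀ q, Lf F y q → y ∈ S ∧ q ∈ S ∧ y ≠ q := by
    rintro q ⟨r, hr⟩
    have h := hF.tr _ _ _ hr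
    exact ⟨h.1, h.2.1, (ne_of_XX_pos h.2.2.2.1).1⟩
  have hyS := (hmem q₀ h0).1
  have hne : ∀ q, Lf F y q → XX y q z ≠ 0 := by
    intro q hq
    obtain ⟨_, h2, h3⟩ := hmem q hq
    have h4 : q ≠ z := by rintro rfl; exact hL hq
    exact hG.1 y hyS q h2 z hz h3 hyz h4
  by_cases hQ : ∃ q, Lf F y q ∧ 0 < XX y q z
  · -- the nearest triangle on the right side
    obtain ⟨q₁, hq₁, hq₁'⟩ := hQ
    set e : ℂ := ⟨-(z - y).im, (z - y).re⟩ with he
    have hdt : ∀ u : ℂ, dt u e = -cr u (z - y) := by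
      intro u
      rw [he]
      simp only [dt, cr]
      ring
    obtain ⟨q, hq, hmin⟩ := Finset.exists_min_image
      (S.filter fun q => Lf F y q ∧ 0 < XX y q z)
      (fun q => cr (q - y) e / dt (q - y) e)
      ⟨q₁, Finset.mem_filter.mpr ⟨(hmem q₁ hq₁).2.1, hq₁, hq₁'⟩⟩
    obtain ⟨hqS, hLq, hqz⟩ := Finset.mem_filter.mp hq
    obtain ⟨r, hr⟩ := hLq
    have hTr := hF.tr _ _ _ hr
    have hLr : Lf F y r := by
      rw [hC r]
      exact ⟨q, hF.cyc _ _ _ (hF.cyc _ _ _ hr)⟩
    have hX : 0 < XX y q r := hTr.2.2.2.1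
    rcases lt_trichotomy (XX y r z) 0 with h | h | h
    · have h2 : 0 < XX y z r := by
        have : XX y z r = -XX y r z := by
          simp only [XX, cr, Complex.sub_re, Complex.sub_im]; ring
        linarith
      exact crossing hTr hz (Ne.symm hyz) hqz h2 hEd
    · exact hne r hLr h
    · have hle := hmin r (Finset.mem_filter.mpr ⟨(hmem r hLr).2.1, hLr, h⟩)
      have d1 : dt (q - y) e < 0 := by rw [hdt]; unfold XX at hqz; linarith
      have d2 : dt (r - y) e < 0 := by rw [hdt]; unfold XX at h; linarith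
      have hlt := slope_lt' d1 d2 (by unfold XX at hX; exact hX)
      exact absurd hlt (not_lt.mpr hle)
  · push Not at hQ
    set e : ℂ := ⟨(z - y).im, -(z - y).re⟩ with he
    have hdt : ∀ u : ℂ, dt u e = cr u (z - y) := by
      intro u
      rw [he]
      simp only [dt, cr]
      ring
    refine hFA S F hG hF y q₀ h0 e ?_ hC
    intro q hq
    rw [hdt]
    exact lt_of_le_of_ne (hQ q hq) (hne q hq)

end FT58.AS.H31
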