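import Pool.Agent.Lib.MP_49fa77_co.H30.Iface3

/-!
# Module LV: level crossing
-/

set_option autoImplicit false

namespace FT58.AS.H31

open Real MeasureTheory Set Metric Filter Relation FT58 FT58.AS

lemma cr_dt_id (a b e : ℂ) : cr e a * dt b e - cr e b * dt a e = -(dt e e * cr a b) := by
  simp only [cr, dt]; ring

lemma dt_self_pos {e : ℂ} (he : e ≠ 0) : 0 < dt e e := by
  have h : dt e e = Complex.normSq e := by simp only [dt, Complex.normSq_apply]
  rw [h]
  exact Complex.normSq_pos.mpr he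

lemma dt_le (v e : ℂ) : dt v e ≤ ‖e‖ * ‖v‖ := by
  have h1 : dt v e ^ 2 + cr v e ^ 2 = ‖v‖ ^ 2 * ‖e‖ ^ 2 := by
    rw [norm_sq_eq, norm_sq_eq]
    simp only [cr, dt]; ring
  have h2 : dt v e ^ 2 ≤ (‖e‖ * ‖v‖) ^ 2 := by nlinarith [sq_nonneg (cr v e)]
  exact (abs_le_of_sq_le_sq' h2 (by positivity)).2

/-- The position of the crossing point. -/
noncomputable def fp (e : ℂ) (τ : ℝ) (c q : ℂ) : ℝ :=
  ((τ - dt q e) * cr e c + (dt c e - τ) * cr e q) / (dt c e - dt q e)

lemma cr_sub (e x y : ℂ) : cr e (x - y) = cr e x - cr e y := by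
  simp only [cr, Complex.sub_re, Complex.sub_im]; ring

lemma dt_sub_left (x y e : ℂ) : dt (x - y) e = dt x e - dt y e := by
  simp only [dt, Complex.sub_re, Complex.sub_im]; ring

lemma fp_below {e : ℂ} {τ : ℝ} {c q r : ℂ} (hc : τ < dt c e) (hq : dt q e < τ)
    (hr : dt r e < τ) (he : e ≠ 0) (hX : 0 < XX c q r) : fp e τ c r < fp e τ c q := by
  have h1 : 0 < dt c e - dt q e := by linarith
  have h2 : 0 < dt c e - dt r e := by linarith
  unfold fp
  rw [div_lt_div_iff₀ h2 h1]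
  have h3 := cr_dt_id (q - c) (r - c) e
  rw [cr_sub, cr_sub, dt_sub_left, dt_sub_left] at h3
  have h4 : 0 < dt e e * cr (q - c) (r - c) := mul_pos (dt_self_pos he) hX
  have h5 : 0 < (dt c e - τ) * (dt e e * cr (q - c) (r - c)) := mul_pos (by linarith) h4
  rw [show dt e e * cr (q - c) (r - c) = -((cr e q - cr e c) * (dt r e - dt c e) -
    (cr e r - cr e c) * (dt q e - dt c e)) by rw [h3]; ring] at h5
  nlinarith [h5]

lemma fp_above {e : ℂ} {τ : ℝ} {c q r : ℂ} (hc : τ < dt c e) (hq : dt q e < τ)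
    (hr : τ < dt r e) (he : e ≠ 0) (hX : 0 < XX c q r) : fp e τ r q < fp e τ c q := by
  have h1 : 0 < dt c e - dt q e := by linarith
  have h2 : 0 < dt r e - dt q e := by linarith
  unfold fp
  rw [div_lt_div_iff₀ h2 h1]
  have h3 := cr_dt_id (r - q) (c - q) e
  rw [cr_sub, cr_sub, dt_sub_left, dt_sub_left] at h3
  have hX' : 0 < cr (r - q) (c - q) := by
    have := XX_cyc c q r
    unfold XX at this hX
    rw [this]
    exact hX
  have h4 : 0 < dt e e * cr (r - q) (c - q) := mul_pos (dt_self_pos he) hX'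
  have h5 : 0 < (τ - dt q e) * (dt e e * cr (r - q) (c - q)) := mul_pos (by linarith) h4
  rw [show dt e e * cr (r - q) (c - q) = -((cr e r - cr e q) * (dt c e - dt q e) -
    (cr e c - cr e q) * (dt r e - dt q e)) by rw [h3]; ring] at h5
  nlinarith [h5]

/-- Every level is crossed by an outer edge. -/
lemma cross {S : Finset ℂ} {e : ℂ} {u d : ℂ} (hd : ReflTransGen (Hg S) u d)
    {τ : ℝ} (h1 : dt d e < τ) (h2 : τ < dt u e) (h3 : ∀ x ∈ S, dt x e ≠ τ) :
    ∃ c ∈ S, ∃ q ∈ S, Ou S c q ∧ ReflTransGen (Hg S) u c ∧ dt q e < τ ∧ τ < dt c e := by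
  classical
  have he : e ≠ 0 := by
    rintro rfl
    have h4 : ∀ x : ℂ, dt x 0 = 0 := fun x => by simp [dt]
    rw [h4] at h1 h2
    linarith
  -- the crossing edges of the complex
  set A : Finset (ℂ × ℂ) := (S ×ˢ S).filter (fun x => Hg S x.1 x.2 ∧ ReflTransGen (Hg S) u x.1 ∧
    dt x.2 e < τ ∧ τ < dt x.1 e) with hA
  have hne : A.Nonempty := by
    by_contra hcon
    have hall : ∀ z, ReflTransGen (Hg S) u z → τ < dt z e := by
      intro z hz
      induction hz with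
      | refl => exact h2
      | @tail b c hb hbc ih =>
        rcases lt_trichotomy (dt c e) τ with h | h | h
        · exfalso
          apply hcon
          exact ⟨(b, c), by
            rw [hA, Finset.mem_filter, Finset.mem_product]
            exact ⟨⟨hbc.1, hbc.2.1⟩, hbc, hb, h, ih⟩⟩
        · exact absurd h (h3 c hbc.2.1)
        · exact h
    have := hall d hd
    linarith
  obtain ⟨⟨c, q⟩, hcq, hmin⟩ := A.exists_min_image (fun x => fp e τ x.1 x.2) hne
  rw [hA, Finset.mem_filter, Finset.mem_product] at hcq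
  obtain ⟨⟨hcS, hqS⟩, hH, hreach, hqτ, hcτ⟩ := hcq
  simp only at hcS hqS hH hreach hqτ hcτ hmin
  have hnot : ¬ Lf (MX S S) c q := by
    rintro ⟨r, hr⟩
    have hT := (MX_Rg S S).tr _ _ _ hr
    have hrS : r ∈ S := hT.2.2.1
    have hX : 0 < XX c q r := Tr_XX hT
    have hqrc := (MX_Rg S S).cyc _ _ _ hr
    have hrcq := (MX_Rg S S).cyc _ _ _ hqrc
    have hHcr : Hg S c r := ⟨hcS, hrS, Or.inr (Or.inr ⟨q, hrcq⟩)⟩
    have hHrq : Hg S r q := ⟨hrS, hqS, Or.inr (Or.inr ⟨c, hqrc⟩)⟩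
    rcases lt_trichotomy (dt r e) τ with h | h | h
    · have h4 : (c, r) ∈ A := by
        rw [hA, Finset.mem_filter, Finset.mem_product]
        exact ⟨⟨hcS, hrS⟩, hHcr, hreach, h, hcτ⟩
      have h5 := hmin _ h4
      have h6 := fp_below hcτ hqτ h he hX
      simp only at h5
      linarith
    · exact h3 r hrS h
    · have h4 : (r, q) ∈ A := by
        rw [hA, Finset.mem_filter, Finset.mem_product]
        exact ⟨⟨hrS, hqS⟩, hHrq, hreach.tail hHcr, hqτ, h⟩
      have h5 := hmin _ h4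
      have h6 := fp_above hcτ hqτ h he hX
      simp only at h5
      linarith
  refine ⟨c, hcS, q, hqS, ⟨?_, hnot⟩, hreach, hqτ, hcτ⟩
  have hne' : c ≠ q := by
    rintro rfl
    linarith
  rcases hH.2.2 with h | h | ⟨r, hr⟩
  · exact h
  · exact absurd h hnot
  · rcases (MX_Rg S S).bd _ _ _ hr with h | h
    · exact absurd h hnot
    · exact Se_symm ⟨hne'.symm, h.1, h.2⟩

/-- LV. -/
theorem lv_st : LvS := by
  classical
  intro S _ e u hu d hd hud
  set B : Finset (ℂ × ℂ) := (S ×ˢ S).filter (fun x => Ou S x.1 x.2 ∧ ReflTransGen (Hg S) u x.1)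
    with hB
  have hsum : sE S (fun c q => Ou S c q ∧ ReflTransGen (Hg S) u c) ln = ∑ x ∈ B, ln x.1 x.2 := by
    rw [hB, Finset.sum_filter, Finset.sum_product]
    unfold sE
    refine Finset.sum_congr rfl fun c _ => Finset.sum_congr rfl fun q _ => ?_
    split_ifs <;> rfl
  rw [hsum, Finset.mul_sum]
  have hpos : ∀ x : ℂ × ℂ, 0 ≤ ‖e‖ * ln x.1 x.2 := fun x => by unfold ln; positivity
  have hsub : Ioo (dt d e) (dt u e) ⊆ (((S.image (fun x => dt x e)) : Finset ℝ) : Set ℝ) ∪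
      ⋃ x ∈ B, Ioo (dt x.2 e) (dt x.1 e) := by
    intro τ hτ
    by_cases h : ∃ x ∈ S, dt x e = τ
    · obtain ⟨x, hx, rfl⟩ := h
      left
      rw [Finset.mem_coe]
      exact Finset.mem_image_of_mem _ hx
    · push Not at h
      right
      obtain ⟨c, hc, q, hq, h1, h2, h3, h4⟩ := cross hud hτ.1 hτ.2 h
      rw [mem_iUnion₂]
      refine ⟨(c, q), ?_, h3, h4⟩
      rw [hB, Finset.mem_filter, Finset.mem_product]
      exact ⟨⟨hc, hq⟩, h1, h2⟩
  have h1 : volume (Ioo (dt d e) (dt u e)) ≤ ∑ x ∈ B, ENNReal.ofReal (‖e‖ * ln x.1 x.2) := by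
    calc volume (Ioo (dt d e) (dt u e)) ≤ volume ((((S.image (fun x => dt x e)) : Finset ℝ) :
          Set ℝ) ∪ ⋃ x ∈ B, Ioo (dt x.2 e) (dt x.1 e)) := measure_mono hsub
      _ ≤ volume (((S.image (fun x => dt x e)) : Finset ℝ) : Set ℝ) +
          volume (⋃ x ∈ B, Ioo (dt x.2 e) (dt x.1 e)) := measure_union_le _ _
      _ = volume (⋃ x ∈ B, Ioo (dt x.2 e) (dt x.1 e)) := by
          rw [(Finset.finite_toSet _).measure_zero, zero_add]
      _ ≤ ∑ x ∈ B, volume (Ioo (dt x.2 e) (dt x.1 e)) := measure_biUnion_finset_le _ _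
      _ ≤ ∑ x ∈ B, ENNReal.ofReal (‖e‖ * ln x.1 x.2) := by
          refine Finset.sum_le_sum fun x _ => ?_
          rw [Real.volume_Ioo]
          apply ENNReal.ofReal_le_ofReal
          have h2 := dt_le (x.1 - x.2) e
          rw [dt_sub_left] at h2
          unfold ln
          rwa [norm_sub_rev x.2 x.1]
  rw [Real.volume_Ioo, ← ENNReal.ofReal_sum_of_nonneg (fun x _ => hpos x)] at h1
  have h2 : 0 ≤ ∑ x ∈ B, ‖e‖ * ln x.1 x.2 := Finset.sum_nonneg fun x _ => hpos x
  rw [ENNReal.ofReal_le_ofReal_iff h2] at h1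
  rw [dt_sub_left]
  exact h1

end FT58.AS.H31
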